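import Pool.Agent.helper17.SG.SpecR

set_option autoImplicit false

open MeasureTheory Set Metric Filter Topology
open scoped ENNReal NNReal ComplexConjugate

namespace Pool.Agent.SG

/-- R01. Equivalent finite measures. -/
theorem R01 : R01_stmt := by
  intro m ν _ _ hνm hmν ε hε
  constructor
  · set f := ν.rnDeriv m with hf
    have hfm : Measurable f := Measure.measurable_rnDeriv ν m
    have hwd : m.withDensity f = ν := Measure.withDensity_rnDeriv_eq ν m hνm
    have hνE : ∀ E, MeasurableSet E → ν E = ∫⁻ x in E, f x ∂m := by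
      intro E hE
      rw [← hwd, withDensity_apply _ hE]
    have h0 : m {x | f x = 0} = 0 := by
      apply hmν
      have hms : MeasurableSet {x | f x = 0} := hfm (measurableSet_singleton 0)
      rw [hνE _ hms, setLIntegral_congr_fun hms (g := fun _ => 0) (fun x hx => hx)]
      simp
    let s : ℕ → Set ℂ := fun n => {x | f x < ENNReal.ofReal (1 / ((n : ℝ) + 1))}
    have hsm : ∀ n, MeasurableSet (s n) := fun n => measurableSet_lt hfm measurable_const
    have hanti : Antitone s := by
      intro a b hab x hx
      refine lt_of_lt_of_le (show f x < ENNReal.ofReal (1 / ((b : ℝ) + 1)) from hx) ?_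
      apply ENNReal.ofReal_le_ofReal
      have hab' : (a : ℝ) ≤ b := by exact_mod_cast hab
      apply one_div_le_one_div_of_le (by positivity)
      linarith
    have hinter : (⋂ n, s n) ⊆ {x | f x = 0} := by
      intro x hx
      rw [Set.mem_iInter] at hx
      have hl : Tendsto (fun n : ℕ => ENNReal.ofReal (1 / ((n : ℝ) + 1))) atTop (𝓝 0) := by
        have := ENNReal.tendsto_ofReal (tendsto_one_div_add_atTop_nhds_zero_nat (𝕜 := ℝ))
        simpa using this
      have : f x ≤ 0 := ge_of_tendsto' hl fun n => le_of_lt (hx n)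
      exact le_antisymm this bot_le
    have hi0 : m (⋂ n, s n) = 0 := measure_mono_null hinter h0
    have hlim := tendsto_measure_iInter_atTop (μ := m) (fun n => (hsm n).nullMeasurableSet) hanti
      ⟨0, measure_ne_top m _⟩
    rw [hi0] at hlim
    obtain ⟨n, hn⟩ := (hlim.eventually (gt_mem_nhds (pos_iff_ne_zero.2 hε))).exists
    refine ⟨1 / ((n : ℝ) + 1), by positivity, (s n)ᶜ, (hsm n).compl, ?_, ?_⟩
    · rw [compl_compl]; exact le_of_lt hn
    · intro E hE hEs
      rw [hνE E hE, ← setLIntegral_const]
      apply setLIntegral_mono hfm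
      intro x hx
      exact not_lt.1 (hEs hx)
  · set g := m.rnDeriv ν with hg
    have hwd : ν.withDensity g = m := Measure.withDensity_rnDeriv_eq m ν hmν
    have hfin : ∫⁻ x, g x ∂ν ≠ ∞ := (Measure.lintegral_rnDeriv_lt_top m ν).ne
    obtain ⟨δ', hδ', h⟩ := exists_pos_setLIntegral_lt_of_measure_lt hfin hε
    obtain ⟨δ, hδ1, hδ2⟩ := exists_between hδ'
    refine ⟨δ, hδ1.ne', fun E hE hνE => ?_⟩
    have h1 := h E (lt_of_le_of_lt hνE hδ2)
    rw [← hwd, withDensity_apply _ hE]
    exact le_of_lt h1

end Pool.Agent.SG
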