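import Pool.Agent.helper3.SG.SpecS

set_option autoImplicit false

open MeasureTheory Set Metric Filter Topology
open scoped ENNReal NNReal ComplexConjugate

namespace Pool.Agent.SG

theorem S16_closed (U : Ultrafilter ℕ) (νk : ℕ → Measure ℂ) (ν : Measure ℂ)
    (hk : ∀ k, IsProbabilityMeasure (νk k)) (hν : IsProbabilityMeasure ν)
    (h : ∀ f : ℂ → ℝ, ContinuousOn f circ →
      Tendsto (fun k => ∫ ξ, f ξ ∂(νk k)) U (𝓝 (∫ ξ, f ξ ∂ν)))
    (F : Set ℂ) (hF : IsClosed F) (ε : ℝ≥0∞) (hε : 0 < ε) :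
    ∀ᶠ k in (U : Filter ℕ), νk k F ≤ ν F + ε := by
  have hpos : ∀ n : ℕ, (0 : ℝ) < 1 / ((n : ℝ) + 1) := fun n => by positivity
  have hlim := tendsto_lintegral_thickenedIndicator_of_isClosed ν hF hpos
    tendsto_one_div_add_atTop_nhds_zero_nat
  have hlt : ν F < ν F + ε := ENNReal.lt_add_right (measure_ne_top ν F) hε.ne'
  obtain ⟨n, hn⟩ := (hlim.eventually (gt_mem_nhds hlt)).exists
  set f := thickenedIndicator (hpos n) F with hf
  have hcont : ContinuousOn (fun z => ((f z : ℝ≥0) : ℝ)) circ :=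
    (NNReal.continuous_coe.comp f.continuous).continuousOn
  have h1 := h _ hcont
  have hfin : ∀ (m : Measure ℂ) [IsProbabilityMeasure m], ∫⁻ z, (f z : ℝ≥0∞) ∂m ≠ ∞ := by
    intro m _
    refine ne_top_of_le_ne_top ENNReal.one_ne_top ?_
    calc ∫⁻ z, (f z : ℝ≥0∞) ∂m ≤ ∫⁻ _, 1 ∂m := by
          apply lintegral_mono
          intro z
          exact ENNReal.coe_le_coe.2 (thickenedIndicator_le_one (hpos n) F z)
      _ = 1 := by simp
  have h2 : Tendsto (fun k => ∫⁻ z, (f z : ℝ≥0∞) ∂(νk k)) U (𝓝 (∫⁻ z, (f z : ℝ≥0∞) ∂ν)) := by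
    have h3 := ENNReal.tendsto_ofReal h1
    have h4 : ∀ (m : Measure ℂ) [IsProbabilityMeasure m],
        ENNReal.ofReal (∫ z, ((f z : ℝ≥0) : ℝ) ∂m) = ∫⁻ z, (f z : ℝ≥0∞) ∂m := by
      intro m _
      rw [← BoundedContinuousFunction.toReal_lintegral_coe_eq_integral,
        ENNReal.ofReal_toReal (hfin m)]
    rw [h4 ν] at h3
    refine h3.congr fun k => ?_
    have := hk k
    exact h4 (νk k)
  filter_upwards [h2.eventually (gt_mem_nhds hn)] with k hk'
  refine le_trans ?_ (le_of_lt hk')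
  have h5 : νk k F = ∫⁻ z, F.indicator (fun _ => (1 : ℝ≥0∞)) z ∂(νk k) := by
    rw [lintegral_indicator hF.measurableSet]
    simp
  rw [h5]
  refine lintegral_mono fun z => ?_
  by_cases hz : z ∈ F
  · have h6 : f z = 1 := thickenedIndicator_one (hpos n) F hz
    rw [Set.indicator_of_mem hz, h6]; simp
  · rw [Set.indicator_of_notMem hz]; exact bot_le

/-- S16. Semicontinuity. -/
theorem S16 : S16_stmt := by
  intro U νk ν hk hν _ h
  have h1 := S16_closed U νk ν (fun k => (hk k).1) hν h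
  refine ⟨h1, ?_, ?_⟩
  · intro V hV ε hε
    filter_upwards [h1 Vᶜ hV.isClosed_compl ε hε] with k hkk
    have := (hk k).1
    have e1 : ν V + ν Vᶜ = 1 := by
      rw [measure_add_measure_compl hV.measurableSet]; simp
    have e2 : νk k V + νk k Vᶜ = 1 := by
      rw [measure_add_measure_compl hV.measurableSet]; simp
    have e3 : ν V + ν Vᶜ ≤ (νk k V + ε) + ν Vᶜ := by
      rw [e1, ← e2]
      calc νk k V + νk k Vᶜ ≤ νk k V + (ν Vᶜ + ε) := by gcongr
        _ = (νk k V + ε) + ν Vᶜ := by ring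
    exact (ENNReal.add_le_add_iff_right (measure_ne_top ν _)).1 e3
  · intro r r' κ ε hr' hrr hε hκ
    have hcomp : IsCompact circ := isCompact_sphere 0 1
    obtain ⟨t, hts, htf, htc⟩ := hcomp.finite_cover_balls (e := r - r') (by linarith)
    have h2 : ∀ᶠ k in (U : Filter ℕ), ∀ y ∈ t, νk k (closedBall y r) ≤ κ + ε := by
      rw [Filter.eventually_all_finite htf]
      intro y hy
      filter_upwards [h1 (closedBall y r) isClosed_closedBall ε hε] with k hkk
      refine hkk.trans ?_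
      gcongr
      exact hκ y (hts hy)
    filter_upwards [h2] with k hkk
    intro x hx
    obtain ⟨y, hy, hxy⟩ := Set.mem_iUnion₂.1 (htc hx)
    refine le_trans (measure_mono (closedBall_subset_closedBall' ?_)) (hkk y hy)
    have := mem_ball.1 hxy
    linarith

end Pool.Agent.SG
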