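import Pool.Agent.helper3.SG.SpecN

set_option autoImplicit false

open MeasureTheory Set Metric Filter Topology
open scoped ENNReal NNReal ComplexConjugate

namespace Pool.Agent.SG

theorem Z03_sum {Γ : Type} [Group Γ] (W : Walk Γ) : ∑ s ∈ W.S, (W.μ s).toReal = 1 := by
  have hfin : ∀ s ∈ W.S, W.μ s ≠ ∞ := by
    intro s hs
    have h1 : W.μ s ≤ ∑ s ∈ W.S, W.μ s :=
      Finset.single_le_sum (f := W.μ) (fun _ _ => bot_le) hs
    rw [W.sum] at h1
    exact ne_top_of_le_ne_top ENNReal.one_ne_top h1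
  rw [← ENNReal.toReal_sum hfin, W.sum]
  simp

theorem Z03_nonel {Γ : Type} [Group Γ] (A : DiscRep Γ) (h : A.NoFin) : A.NonEl := by
  intro Z hZ h1
  by_contra hc
  push Not at hc
  refine h (Z : Set ℂ) Z.finite_toSet (by simpa using hZ) ?_ ?_
  · intro z hz
    have := h1 z (by simpa using hz)
    simp [circ, this]
  · intro γ ξ hξ
    exact hc γ ξ (by simpa using hξ)

/-- Z03. Unbounded representations. -/
theorem Z03 (hS07 : S07_stmt) (hS18 : S18_stmt) (hS20 : S20_stmt) (hS27 : S27_stmt)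
    (hS31 : S31_stmt) (hM03 : M03_stmt) : Z03_stmt := by
  intro Γ _ hTF hNA W U Ak νk D hdisc hstat hnrm hD hmax
  have hnt := hS27 Γ hTF hNA W U Ak νk D hdisc hstat hnrm hD hmax
  have hell : ∀ k, 0 ≤ ell (Ak k) W (νk k) := by
    intro k
    obtain ⟨C, _, hC⟩ := hS20 Γ W 1
    refine (hC (fun x => Phi (νk k) ((Ak k).a x) ((Ak k).b x) + 1) (ell (Ak k) W (νk k)) ?_ ?_).1
    · intro x
      have := (hnrm k).low _ _ ((Ak k).norm_eq x)
      linarith
    · intro x
      have h2 := (hS18 Γ (Ak k) W (νk k) (hstat k)).2 x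
      unfold Walk.avr at h2 ⊢
      simp only [mul_add, mul_one, Finset.sum_add_distrib, Z03_sum]
      rw [h2]; ring
  rw [Metric.tendsto_nhds] at hnt
  push Not at hnt
  obtain ⟨ε, hε, hne⟩ := hnt
  have hev := hD.eventually (eventually_gt_atTop (max 0 (2 * Real.log W.S.card / ε)))
  filter_upwards [hne, hev] with k h1 h2
  have hDk : 0 < D k := lt_of_le_of_lt (le_max_left _ _) h2
  have hDk2 : 2 * Real.log W.S.card / ε < D k := lt_of_le_of_lt (le_max_right _ _) h2
  rw [dist_zero_right, Real.norm_eq_abs, abs_of_nonneg (div_nonneg (hell k) hDk.le),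
    le_div_iff₀ hDk] at h1
  rw [div_lt_iff₀ hε] at hDk2
  have hpos : 0 < ell (Ak k) W (νk k) := lt_of_lt_of_le (mul_pos hε hDk) h1
  refine hS31 Γ (Ak k) W (νk k) (hstat k) ?_ (1 / 2) (by norm_num) hpos ?_
  · exact hM03 Γ (Ak k) W (νk k) (hstat k) (Z03_nonel _ (hS07 Γ hTF hNA (Ak k) (hdisc k)))
  · nlinarith

end Pool.Agent.SG
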